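import Mathlib
import Pool.Agent.Q240.LineArrB

/-!
# MP_3f465e_co: vertices of real projective line arrangements

The points and the lines of the real projective plane are the one-dimensional and the
two-dimensional linear subspaces of `ℝ³`, and incidence is inclusion. We prove that every
arrangement of `n ≥ 10` lines which is not the near-pencil has at least `2n - 4` vertices.
-/

namespace Pool.Agent.Results.MP_3f465e_co.VertexBound

open Finset Module

/-- the vector space `ℝ³` -/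
abbrev V3 : Type := Fin 3 → ℝ

/-- a point of the real projective plane: a one-dimensional subspace of `ℝ³` -/
def IsPoint (P : Submodule ℝ V3) : Prop := finrank ℝ P = 1

/-- a line of the real projective plane: a two-dimensional subspace of `ℝ³` -/
def IsLine (L : Submodule ℝ V3) : Prop := finrank ℝ L = 2

/-- a 2-arrangement: at least three distinct lines of the real projective plane which do not all
pass through one common point -/
def IsArrangement (A : Finset (Submodule ℝ V3)) : Prop :=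
  3 ≤ A.card ∧ (∀ L ∈ A, IsLine L) ∧ ¬ ∃ P, IsPoint P ∧ ∀ L ∈ A, P ≤ L

/-- the vertices: the points lying on at least two lines of the arrangement -/
def vertices (A : Finset (Submodule ℝ V3)) : Set (Submodule ℝ V3) :=
  {P | IsPoint P ∧ ∃ L₁ ∈ A, ∃ L₂ ∈ A, L₁ ≠ L₂ ∧ P ≤ L₁ ∧ P ≤ L₂}

/-- the near-pencil: some point is on all lines of the arrangement but exactly one -/
def IsNearPencil (A : Finset (Submodule ℝ V3)) : Prop :=
  ∃ P, IsPoint P ∧ ∃ L₀ ∈ A, ¬ P ≤ L₀ ∧ ∀ L ∈ A, L ≠ L₀ → P ≤ L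

section proof

open scoped Classical
open Pool.Agent.Helper543.Melchior

lemma val {w : V3} (hw : w 2 ≠ 0) {g : V3 →ₗ[ℝ] ℝ} (hg : g w = 1) (x : V3) :
    g x = (x 0 - x 2 / w 2 * w 0) * g (Pi.single 0 1) + (x 1 - x 2 / w 2 * w 1) * g (Pi.single 1 1)
      + x 2 / w 2 := by
  have hx : x = (x 0 - x 2 / w 2 * w 0) • (Pi.single 0 1 : V3)
      + (x 1 - x 2 / w 2 * w 1) • (Pi.single 1 1 : V3) + (x 2 / w 2) • w := by
    funext i
    fin_cases i
    · simp
    · simp
    · simp [hw]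
  conv_lhs => rw [hx]
  rw [map_add, map_add, map_smul, map_smul, map_smul, hg]
  simp

/-- the point dual to a functional -/
noncomputable def pt (g : V3 →ₗ[ℝ] ℝ) : Pt := (g (Pi.single 0 1), g (Pi.single 1 1))

lemma zero_of_cr {w : V3} (hw : w 2 ≠ 0) {g₁ g₂ g₃ : V3 →ₗ[ℝ] ℝ} (h1 : g₁ w = 1) (h2 : g₂ w = 1)
    (h3 : g₃ w = 1) (hne : pt g₁ ≠ pt g₂) (hcr : cr (pt g₁) (pt g₂) (pt g₃) = 0) {x : V3}
    (hx1 : g₁ x = 0) (hx2 : g₂ x = 0) : g₃ x = 0 := by
  obtain ⟨s, hs1, hs2⟩ := exists_param hne hcr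
  simp only [pt] at hs1 hs2
  rw [val hw h1] at hx1
  rw [val hw h2] at hx2
  rw [val hw h3]
  linear_combination (x 0 - x 2 / w 2 * w 0) * hs1 + (x 1 - x 2 / w 2 * w 1) * hs2
    + (1 - s) * hx1 + s * hx2

lemma cr_of_zero {w : V3} (hw : w 2 ≠ 0) {g₁ g₂ g₃ : V3 →ₗ[ℝ] ℝ} (h1 : g₁ w = 1) (h2 : g₂ w = 1)
    (h3 : g₃ w = 1) {x : V3} (hx : x ≠ 0)
    (hx1 : g₁ x = 0) (hx2 : g₂ x = 0) (hx3 : g₃ x = 0) : cr (pt g₁) (pt g₂) (pt g₃) = 0 := by
  rw [val hw h1] at hx1
  rw [val hw h2] at hx2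
  rw [val hw h3] at hx3
  set a := x 0 - x 2 / w 2 * w 0 with ha
  set b := x 1 - x 2 / w 2 * w 1 with hb
  have e1 : a * cr (pt g₁) (pt g₂) (pt g₃) = 0 := by
    simp only [cr, pt]
    linear_combination (g₃ (Pi.single 1 1) - g₁ (Pi.single 1 1)) * (hx2 - hx1)
      - (g₂ (Pi.single 1 1) - g₁ (Pi.single 1 1)) * (hx3 - hx1)
  have e2 : b * cr (pt g₁) (pt g₂) (pt g₃) = 0 := by
    simp only [cr, pt]
    linear_combination (g₂ (Pi.single 0 1) - g₁ (Pi.single 0 1)) * (hx3 - hx1)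
      - (g₃ (Pi.single 0 1) - g₁ (Pi.single 0 1)) * (hx2 - hx1)
  by_contra hne
  have ha0 : a = 0 := by
    rcases mul_eq_zero.1 e1 with h | h
    · exact h
    · exact absurd h hne
  have hb0 : b = 0 := by
    rcases mul_eq_zero.1 e2 with h | h
    · exact h
    · exact absurd h hne
  rw [ha0, hb0] at hx1
  have hc : x 2 / w 2 = 0 := by linarith
  have hx20 : x 2 = 0 := by
    rcases div_eq_zero_iff.1 hc with h | h
    · exact h
    · exact absurd h hw
  rw [hc] at ha hb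
  apply hx
  funext i
  fin_cases i
  · simp; linarith
  · simp; linarith
  · simpa using hx20

lemma exists_ne_zero {P : Submodule ℝ V3} (hP : IsPoint P) : ∃ x ∈ P, x ≠ 0 := by
  have : P ≠ ⊥ := by
    rintro rfl
    simp [IsPoint] at hP
  exact (Submodule.ne_bot_iff P).1 this

lemma inf_point {L₁ L₂ : Submodule ℝ V3} (h1 : IsLine L₁) (h2 : IsLine L₂) (hne : L₁ ≠ L₂) :
    IsPoint (L₁ ⊓ L₂) := by
  have hs := Submodule.finrank_sup_add_finrank_inf_eq L₁ L₂
  have hle : finrank ℝ (L₁ ⊔ L₂ : Submodule ℝ V3) ≤ 3 := by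
    simpa using Submodule.finrank_le (L₁ ⊔ L₂)
  have hinf : finrank ℝ (L₁ ⊓ L₂ : Submodule ℝ V3) ≤ 2 := by
    rw [← h1]
    exact Submodule.finrank_mono inf_le_left
  unfold IsPoint IsLine at *
  by_contra hcon
  have h3 : finrank ℝ (L₁ ⊓ L₂ : Submodule ℝ V3) = 2 := by omega
  have e1 : L₁ ⊓ L₂ = L₁ := Submodule.eq_of_le_of_finrank_eq inf_le_left (by rw [h3, h1])
  have e2 : L₁ ⊓ L₂ = L₂ := Submodule.eq_of_le_of_finrank_eq inf_le_right (by rw [h3, h2])
  exact hne (e1.symm.trans e2)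

lemma eq_inf {L₁ L₂ P : Submodule ℝ V3} (h1 : IsLine L₁) (h2 : IsLine L₂) (hne : L₁ ≠ L₂)
    (hP : IsPoint P) (hP1 : P ≤ L₁) (hP2 : P ≤ L₂) : P = L₁ ⊓ L₂ :=
  Submodule.eq_of_le_of_finrank_eq (le_inf hP1 hP2) (by rw [hP, inf_point h1 h2 hne])

lemma vertices_finite {A : Finset (Submodule ℝ V3)} (hA : ∀ L ∈ A, IsLine L) :
    (vertices A).Finite := by
  refine ((A ×ˢ A).image (fun e => e.1 ⊓ e.2)).finite_toSet.subset ?_
  rintro P ⟨hP, L₁, h1, L₂, h2, hne, hP1, hP2⟩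
  rw [mem_coe, mem_image]
  exact ⟨(L₁, L₂), by simp [h1, h2], (eq_inf (hA _ h1) (hA _ h2) hne hP hP1 hP2).symm⟩

lemma exists_w {A : Finset (Submodule ℝ V3)} (hA : ∀ L ∈ A, IsLine L) :
    ∃ w : V3, w 2 ≠ 0 ∧ ∀ L ∈ A, w ∉ L := by
  set K : Submodule ℝ V3 := LinearMap.ker (LinearMap.proj 2 : V3 →ₗ[ℝ] ℝ) with hK
  have htop : (⊤ : Submodule ℝ V3) ∉ insert K A := by
    rw [mem_insert]
    rintro (h | h)
    · have : (Pi.single 2 1 : V3) ∈ K := h ▸ Submodule.mem_top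
      rw [hK, LinearMap.mem_ker] at this
      simp at this
    · have := hA _ h
      unfold IsLine at this
      rw [finrank_top] at this
      simp at this
  have := Subspace.biUnion_ne_univ_of_top_notMem htop
  rw [Set.ne_univ_iff_exists_notMem] at this
  obtain ⟨w, hw⟩ := this
  simp only [Set.mem_iUnion, not_exists, SetLike.mem_coe] at hw
  refine ⟨w, fun h => hw K (mem_insert_self _ _) ?_, fun L hL => hw L (mem_insert_of_mem hL)⟩
  rw [hK, LinearMap.mem_ker]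
  exact h

lemma exists_g {w : V3} {L : Submodule ℝ V3} (hL : IsLine L) (hw : w ∉ L) :
    ∃ g : V3 →ₗ[ℝ] ℝ, g w = 1 ∧ ∀ x, x ∈ L ↔ g x = 0 := by
  obtain ⟨f, hf, hle⟩ := Submodule.exists_le_ker_of_notMem hw
  refine ⟨(f w)⁻¹ • f, by simp [hf], ?_⟩
  have hne : f ≠ 0 := by
    rintro rfl
    simp at hf
  have hk := Module.Dual.finrank_ker_add_one_of_ne_zero (f := f) hne
  have hfin : finrank ℝ V3 = 3 := by simp
  rw [hfin] at hk
  have : L = LinearMap.ker f := Submodule.eq_of_le_of_finrank_eq hle (by unfold IsLine at hL; omega)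
  intro x
  rw [this, LinearMap.mem_ker]
  simp [hf]

end proof

open scoped Classical in
/-- Every arrangement of `n ≥ 10` lines of the real projective plane, not all through one point,
other than the near-pencil, has at least `2n - 4` vertices. -/
theorem result : ∀ A : Finset (Submodule ℝ V3), IsArrangement A → ¬ IsNearPencil A →
    10 ≤ A.card → (vertices A).Finite ∧ 2 * A.card ≤ (vertices A).ncard + 4 := by
  intro A hA hnp hn
  obtain ⟨_, hlin, hcom⟩ := hA
  refine ⟨vertices_finite hlin, ?_⟩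
  -- at most `n - 2` lines through each point
  have hmult : ∀ P, IsPoint P → (A.filter (fun L => P ≤ L)).card + 2 ≤ A.card := by
    intro P hP
    have hsplit := card_filter_add_card_filter_not (s := A) (fun L => P ≤ L)
    by_contra hcon
    have hle : (A.filter (fun L => ¬ P ≤ L)).card ≤ 1 := by omega
    rcases Nat.le_one_iff_eq_zero_or_eq_one.1 hle with h0 | h0
    · rw [card_eq_zero, filter_eq_empty_iff] at h0
      exact hcom ⟨P, hP, fun L hL => by simpa using h0 hL⟩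
    · obtain ⟨L₀, hL₀⟩ := card_eq_one.1 h0
      have hm : L₀ ∈ A.filter (fun L => ¬ P ≤ L) := by rw [hL₀]; simp
      rw [mem_filter] at hm
      refine hnp ⟨P, hP, L₀, hm.1, hm.2, fun L hL hne => ?_⟩
      by_contra hPL
      have : L ∈ A.filter (fun L => ¬ P ≤ L) := mem_filter.2 ⟨hL, hPL⟩
      rw [hL₀, mem_singleton] at this
      exact hne this
  obtain ⟨w, hw, hwA⟩ := exists_w hlin
  choose! g hg1 hg2 using fun (L : Submodule ℝ V3) (hL : L ∈ A) => exists_g (hlin L hL) (hwA L hL)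
  set p : Submodule ℝ V3 → Pool.Agent.Helper543.Melchior.Pt := fun L => pt (g L) with hp
  have hinj : ∀ L ∈ A, ∀ L' ∈ A, p L = p L' → L = L' := by
    intro L hL L' hL' h
    ext x
    rw [hg2 L hL, hg2 L' hL', val hw (hg1 L hL), val hw (hg1 L' hL')]
    simp only [hp, pt, Prod.mk.injEq] at h
    rw [h.1, h.2]
  set S := A.image p with hS
  have hcardS : S.card = A.card := card_image_of_injOn (fun L hL L' hL' h => hinj L hL L' hL' h)
  have hmemS : ∀ L ∈ A, p L ∈ S := fun L hL => mem_image_of_mem _ hL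
  -- each line of `S` comes from a vertex
  have hvert : ∀ M ∈ Pool.Agent.Helper543.Melchior.lines S, ∃ P, IsPoint P ∧ ∃ L₁ ∈ A, ∃ L₂ ∈ A,
      L₁ ≠ L₂ ∧ P ≤ L₁ ∧ P ≤ L₂ ∧ p L₁ ∈ M ∧ p L₂ ∈ M := by
    intro M hM
    obtain ⟨a, ha, b, hb, hab⟩ := Pool.Agent.Helper543.Melchior.exists_two hM
    have haS := Pool.Agent.Helper543.Melchior.line_subset hM ha
    have hbS := Pool.Agent.Helper543.Melchior.line_subset hM hb
    rw [hS, mem_image] at haS hbS
    obtain ⟨L₁, h1, rfl⟩ := haS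
    obtain ⟨L₂, h2, rfl⟩ := hbS
    have hne : L₁ ≠ L₂ := fun h => hab (by rw [h])
    exact ⟨L₁ ⊓ L₂, inf_point (hlin _ h1) (hlin _ h2) hne, L₁, h1, L₂, h2, hne, inf_le_left,
      inf_le_right, ha, hb⟩
  have hcr : ∀ P, IsPoint P → ∀ L₁ ∈ A, ∀ L₂ ∈ A, ∀ L₃ ∈ A, P ≤ L₁ → P ≤ L₂ → P ≤ L₃ →
      Pool.Agent.Helper543.Melchior.cr (p L₁) (p L₂) (p L₃) = 0 := by
    intro P hP L₁ h1 L₂ h2 L₃ h3 hP1 hP2 hP3
    obtain ⟨x, hxP, hx0⟩ := exists_ne_zero hP
    exact cr_of_zero hw (hg1 _ h1) (hg1 _ h2) (hg1 _ h3) hx0 ((hg2 _ h1 x).1 (hP1 hxP))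
      ((hg2 _ h2 x).1 (hP2 hxP)) ((hg2 _ h3 x).1 (hP3 hxP))
  choose! v hv1 hv2 using hvert
  -- the lines of `S` have at most `n - 2` points
  have hM2 : ∀ M ∈ Pool.Agent.Helper543.Melchior.lines S, M.card + 2 ≤ S.card := by
    intro M hM
    obtain ⟨L₁, h1, L₂, h2, hne, hP1, hP2, hp1, hp2⟩ := hv2 M hM
    have hpne : p L₁ ≠ p L₂ := fun h => hne (hinj _ h1 _ h2 h)
    have hMeq := Pool.Agent.Helper543.Melchior.eq_lineOf hM hp1 hp2 hpne
    have hsub : M ⊆ (A.filter (fun L => v M ≤ L)).image p := by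
      intro q hq
      have hqS := Pool.Agent.Helper543.Melchior.line_subset hM hq
      rw [hS, mem_image] at hqS
      obtain ⟨L, hL, rfl⟩ := hqS
      rw [mem_image]
      refine ⟨L, mem_filter.2 ⟨hL, ?_⟩, rfl⟩
      rw [hMeq, Pool.Agent.Helper543.Melchior.mem_lineOf] at hq
      intro x hx
      rw [hg2 L hL]
      exact zero_of_cr hw (hg1 _ h1) (hg1 _ h2) (hg1 _ hL) hpne hq.2 ((hg2 _ h1 x).1 (hP1 hx))
        ((hg2 _ h2 x).1 (hP2 hx))
    have := (card_le_card hsub).trans card_image_le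
    have := hmult (v M) (hv1 M hM)
    omega
  have hmain := Pool.Agent.Q240.LineArr.main (S := S) (by omega) hM2
  rw [hcardS] at hmain
  -- the map from lines of `S` to vertices is injective
  have hle : (Pool.Agent.Helper543.Melchior.lines S).card ≤ (vertices A).ncard := by
    have hfin := vertices_finite hlin
    rw [← Set.ncard_coe_finset]
    refine Set.ncard_le_ncard_of_injOn v ?_ ?_ hfin
    · intro M hM
      obtain ⟨L₁, h1, L₂, h2, hne, hP1, hP2, _, _⟩ := hv2 M hM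
      exact ⟨hv1 M hM, L₁, h1, L₂, h2, hne, hP1, hP2⟩
    · intro M hM M' hM' hvv
      obtain ⟨L₁, h1, L₂, h2, hne, hP1, hP2, hp1, hp2⟩ := hv2 M hM
      obtain ⟨L₁', h1', L₂', h2', hne', hP1', hP2', hp1', hp2'⟩ := hv2 M' hM'
      have hpne : p L₁ ≠ p L₂ := fun h => hne (hinj _ h1 _ h2 h)
      have hpne' : p L₁' ≠ p L₂' := fun h => hne' (hinj _ h1' _ h2' h)
      have hMeq := Pool.Agent.Helper543.Melchior.eq_lineOf hM hp1 hp2 hpne
      have hMeq' := Pool.Agent.Helper543.Melchior.eq_lineOf hM' hp1' hp2' hpne'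
      have a1 : p L₁' ∈ M := by
        rw [hMeq, Pool.Agent.Helper543.Melchior.mem_lineOf]
        exact ⟨hmemS _ h1', hcr (v M) (hv1 M hM) _ h1 _ h2 _ h1' hP1 hP2 (hvv ▸ hP1')⟩
      have a2 : p L₂' ∈ M := by
        rw [hMeq, Pool.Agent.Helper543.Melchior.mem_lineOf]
        exact ⟨hmemS _ h2', hcr (v M) (hv1 M hM) _ h1 _ h2 _ h2' hP1 hP2 (hvv ▸ hP2')⟩
      rw [hMeq']
      exact Pool.Agent.Helper543.Melchior.eq_lineOf hM a1 a2 hpne'
  omega

end Pool.Agent.Results.MP_3f465e_co.VertexBound
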